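import Mathlib
import Pool.Agent.H220.K.Stm

set_option autoImplicit false

open Set Filter Topology Metric
open scoped ContDiff ComplexConjugate

/-!
# `S_smooth`: smoothness and nonnegative Levi form of the series `g0` off `Pi0`
-/

namespace Pool.Agent.H32.K

open Pool.Agent.H220.K

abbrev E2 := ℂ × ℂ

/-- half the logarithm of the squared Euclidean norm -/
noncomputable def ell (Y : E2) : ℝ := 1 / 2 * Real.log (‖Y.1‖ ^ 2 + ‖Y.2‖ ^ 2)

/-- the squared Euclidean norm is positive off zero -/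
theorem nsq_pos {Y : E2} (hY : Y ≠ 0) : 0 < ‖Y.1‖ ^ 2 + ‖Y.2‖ ^ 2 := by
  rcases eq_or_ne Y.1 0 with h1 | h1
  · have h2 : Y.2 ≠ 0 := fun h2 => hY (Prod.ext h1 h2)
    have := norm_pos_iff.mpr h2
    positivity
  · have := norm_pos_iff.mpr h1
    positivity

theorem ell_contDiffAt {Y : E2} (hY : Y ≠ 0) : ContDiffAt ℝ ∞ ell Y := by
  have h1 : ContDiff ℝ ∞ (fun Y : E2 => ‖Y.1‖ ^ 2 + ‖Y.2‖ ^ 2) :=
    ((contDiff_norm_sq ℝ).comp contDiff_fst).add ((contDiff_norm_sq ℝ).comp contDiff_snd)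
  exact contDiffAt_const.mul (h1.contDiffAt.log (ne_of_gt (nsq_pos hY)))

/-- the Levi form of `ell` is nonnegative -/
theorem levi_ell {Y : E2} (hY : Y ≠ 0) (ξ : E2) : 0 ≤ levi ell Y ξ := by
  have key : ∀ v : E2, iteratedDeriv 2 (fun t : ℝ => ell (Y + (t : ℂ) • v)) 0 =
      (2 * (‖v.1‖ ^ 2 + ‖v.2‖ ^ 2) * (‖Y.1‖ ^ 2 + ‖Y.2‖ ^ 2) -
        (2 * (Y.1.re * v.1.re + Y.1.im * v.1.im + (Y.2.re * v.2.re + Y.2.im * v.2.im))) ^ 2) /
        (2 * (‖Y.1‖ ^ 2 + ‖Y.2‖ ^ 2) ^ 2) := by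
    intro v
    set q : ℝ → ℝ := fun t => (‖Y.1‖ ^ 2 + ‖Y.2‖ ^ 2) +
      2 * (Y.1.re * v.1.re + Y.1.im * v.1.im + (Y.2.re * v.2.re + Y.2.im * v.2.im)) * t +
      (‖v.1‖ ^ 2 + ‖v.2‖ ^ 2) * t ^ 2 with hq
    have hqe : ∀ t : ℝ, ‖(Y + (t : ℂ) • v).1‖ ^ 2 + ‖(Y + (t : ℂ) • v).2‖ ^ 2 = q t := by
      intro t
      rw [hq]
      simp only [Complex.sq_norm, Complex.normSq_apply]
      simp
      ring
    have e : (fun t : ℝ => ell (Y + (t : ℂ) • v)) = fun t => (1 / 2) * Real.log (q t) := by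
      funext t
      rw [← hqe]
      rfl
    rw [e]
    have hYp := nsq_pos hY
    have hq00 : q 0 = ‖Y.1‖ ^ 2 + ‖Y.2‖ ^ 2 := by simp [hq]
    have hq0 : 0 < q 0 := by rw [hq00]; exact hYp
    have hqc : Continuous q := by simp only [hq]; fun_prop
    have hqd : ∀ t, HasDerivAt q (2 * (Y.1.re * v.1.re + Y.1.im * v.1.im +
        (Y.2.re * v.2.re + Y.2.im * v.2.im)) + (‖v.1‖ ^ 2 + ‖v.2‖ ^ 2) * (2 * t)) t := by
      intro t
      have h1 := ((hasDerivAt_id t).const_mul (2 * (Y.1.re * v.1.re + Y.1.im * v.1.im +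
        (Y.2.re * v.2.re + Y.2.im * v.2.im)))).const_add (‖Y.1‖ ^ 2 + ‖Y.2‖ ^ 2)
      have h2 := (hasDerivAt_pow 2 t).const_mul (‖v.1‖ ^ 2 + ‖v.2‖ ^ 2)
      have h3 : HasDerivAt q _ t := h1.add h2
      refine h3.congr_deriv ?_
      simp
    have hd : ∀ᶠ t in 𝓝 (0 : ℝ), deriv (fun t => (1 / 2) * Real.log (q t)) t =
        (2 * (Y.1.re * v.1.re + Y.1.im * v.1.im + (Y.2.re * v.2.re + Y.2.im * v.2.im)) +
          (‖v.1‖ ^ 2 + ‖v.2‖ ^ 2) * (2 * t)) / (2 * q t) := by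
      filter_upwards [hqc.continuousAt.eventually (lt_mem_nhds hq0)] with t ht
      have := ((hqd t).log (ne_of_gt ht)).const_mul (1 / 2)
      rw [this.deriv]
      field_simp
    rw [iteratedDeriv_succ, iteratedDeriv_one, Filter.EventuallyEq.deriv_eq hd]
    have hn : HasDerivAt (fun t : ℝ => 2 * (Y.1.re * v.1.re + Y.1.im * v.1.im +
        (Y.2.re * v.2.re + Y.2.im * v.2.im)) + (‖v.1‖ ^ 2 + ‖v.2‖ ^ 2) * (2 * t))
        ((‖v.1‖ ^ 2 + ‖v.2‖ ^ 2) * 2) 0 := by
      have := (((hasDerivAt_id (0 : ℝ)).const_mul 2).const_mul (‖v.1‖ ^ 2 + ‖v.2‖ ^ 2)).const_add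
        (2 * (Y.1.re * v.1.re + Y.1.im * v.1.im + (Y.2.re * v.2.re + Y.2.im * v.2.im)))
      simpa using this
    have hdd := hn.div ((hqd 0).const_mul 2) (by positivity)
    have hdd' : deriv (fun t : ℝ => (2 * (Y.1.re * v.1.re + Y.1.im * v.1.im +
        (Y.2.re * v.2.re + Y.2.im * v.2.im)) + (‖v.1‖ ^ 2 + ‖v.2‖ ^ 2) * (2 * t)) /
      (2 * q t)) 0 = _ := hdd.deriv
    rw [hdd', hq00]
    field_simp
    ring
  have k1 := key ξ
  have k2 := key (Complex.I • ξ)
  unfold levi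
  have e2 : (fun t : ℝ => ell (Y + ((t : ℂ) * Complex.I) • ξ)) =
      fun t : ℝ => ell (Y + (t : ℂ) • (Complex.I • ξ)) := by
    funext t; rw [smul_smul]
  rw [e2, k1, k2]
  have hn : ∀ z : ℂ, ‖z‖ ^ 2 = z.re * z.re + z.im * z.im := fun z => by
    rw [Complex.sq_norm, Complex.normSq_apply]
  have hYp := nsq_pos hY
  simp only [Prod.smul_fst, Prod.smul_snd, smul_eq_mul, norm_mul, Complex.norm_I, one_mul,
    Complex.mul_re, Complex.mul_im, Complex.I_re, Complex.I_im]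
  rw [← add_div]
  refine div_nonneg (div_nonneg ?_ (by positivity)) (by norm_num)
  simp only [hn]
  nlinarith [sq_nonneg (Y.1.re * ξ.2.re - Y.1.im * ξ.2.im - (Y.2.re * ξ.1.re - Y.2.im * ξ.1.im)),
    sq_nonneg (Y.1.re * ξ.2.im + Y.1.im * ξ.2.re - (Y.2.re * ξ.1.im + Y.2.im * ξ.1.re))]

/-- a smooth compactly supported function equal to `ell` on an annulus -/
theorem exists_cut {ρ R : ℝ} (hρ : 0 < ρ) (hR : 0 < R) : ∃ L : E2 → ℝ, ContDiff ℝ ∞ L ∧
    HasCompactSupport L ∧ ∀ Y : E2, ρ ≤ ‖Y‖ → ‖Y‖ ≤ R → L Y = ell Y := by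
  let bo : ContDiffBump (0 : E2) := ⟨R, R + 1, hR, by linarith⟩
  let bi : ContDiffBump (0 : E2) := ⟨ρ / 3, ρ / 2, by linarith, by linarith⟩
  refine ⟨fun Y => bo Y * (1 - bi Y) * ell Y, ?_, ?_, ?_⟩
  · rw [contDiff_iff_contDiffAt]
    intro Y
    rcases eq_or_ne Y 0 with hY | hY
    · have h0 : (fun Y => bo Y * (1 - bi Y) * ell Y) =ᶠ[𝓝 Y] fun _ => (0 : ℝ) := by
        subst hY
        filter_upwards [ball_mem_nhds (0 : E2) bi.rIn_pos] with Z hZ
        rw [bi.one_of_mem_closedBall (ball_subset_closedBall hZ)]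
        ring
      exact contDiffAt_const.congr_of_eventuallyEq h0
    · exact (bo.contDiffAt.mul (contDiffAt_const.sub bi.contDiffAt)).mul (ell_contDiffAt hY)
  · exact (bo.hasCompactSupport.mul_right).mul_right
  · intro Y h1 h2
    have e1 : bo Y = 1 := bo.one_of_mem_closedBall (by simpa using h2)
    have e2 : bi Y = 0 := bi.zero_of_le_dist (by
      show ρ / 2 ≤ dist Y 0
      rw [dist_zero_right]; linarith)
    show bo Y * (1 - bi Y) * ell Y = ell Y
    rw [e1, e2]; ring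

/-- second derivative along a line -/
theorem line_second {φ : E2 → ℝ} (hφ : ContDiff ℝ ∞ φ) (z v : E2) :
    iteratedDeriv 2 (fun t : ℝ => φ (z + (t : ℂ) • v)) 0 =
      iteratedFDeriv ℝ 2 φ z (fun _ => v) := by
  have h1 : ContDiff ℝ ∞ (fun x => φ (z + x)) := hφ.comp (contDiff_const.add contDiff_id)
  let g : ℝ →L[ℝ] E2 := (ContinuousLinearMap.id ℝ ℝ).smulRight v
  have hg : (fun t : ℝ => φ (z + (t : ℂ) • v)) = (fun x => φ (z + x)) ∘ g := by
    funext t
    simp only [Function.comp, g, ContinuousLinearMap.smulRight_apply, ContinuousLinearMap.id_apply]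
    congr 2
  rw [iteratedDeriv_eq_iteratedFDeriv, hg,
    g.iteratedFDeriv_comp_right (n := ∞) h1 0 (i := 2) (by exact two_le_infty),
    ContinuousMultilinearMap.compContinuousLinearMap_apply, iteratedFDeriv_comp_add_left]
  congr 1
  · simp
  · funext i
    simp [g]

theorem levi_eq {φ : E2 → ℝ} (hφ : ContDiff ℝ ∞ φ) (z ξ : E2) :
    levi φ z ξ = (iteratedFDeriv ℝ 2 φ z (fun _ => ξ) +
      iteratedFDeriv ℝ 2 φ z (fun _ => Complex.I • ξ)) / 4 := by
  unfold levi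
  rw [line_second hφ]
  have e2 : (fun t : ℝ => φ (z + ((t : ℂ) * Complex.I) • ξ)) =
      fun t : ℝ => φ (z + (t : ℂ) • (Complex.I • ξ)) := by
    funext t; rw [smul_smul]
  rw [e2, line_second hφ]

theorem s_smooth : S_smooth := by
  intro P hP y hy
  set Z : ℕ → E2 := fun j => (P j, conj (P j)) with hZ
  have hZP : ∀ j, Z j ∈ Pi0 := fun j => ⟨rfl, hP j⟩
  have hZn : ∀ j, ‖Z j‖ ≤ 1 := by
    intro j
    rw [hZ, Prod.norm_def]
    simp only [RCLike.norm_conj]
    exact max_le (hP j) (hP j)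
  have hclosed : IsClosed Pi0 :=
    (isClosed_eq continuous_snd (Complex.continuous_conj.comp continuous_fst)).inter
      (isClosed_le (continuous_norm.comp continuous_fst) continuous_const)
  obtain ⟨ε, hε, hball⟩ := Metric.isOpen_iff.mp hclosed.isOpen_compl y hy
  have hfar : ∀ j, ε ≤ ‖y - Z j‖ := by
    intro j
    by_contra hcon
    push Not at hcon
    have : Z j ∈ ball y ε := by rw [mem_ball, dist_comm, dist_eq_norm]; exact hcon
    exact hball this (hZP j)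
  set ρ := ε / 2 with hρ
  set R := ‖y‖ + ε / 2 + 1 with hR
  obtain ⟨L, hL, hLc, hLe⟩ := exists_cut (ρ := ρ) (R := R) (by positivity) (by positivity)
  -- bounds for the derivatives
  have hbd : ∀ k : ℕ, ∃ C : ℝ, ∀ Y, ‖iteratedFDeriv ℝ k L Y‖ ≤ C := by
    intro k
    have h1 : Continuous (iteratedFDeriv ℝ k L) :=
      hL.continuous_iteratedFDeriv (by exact_mod_cast (le_top : (k : ℕ∞) ≤ ⊤))
    exact (hLc.iteratedFDeriv k).exists_bound_of_continuous h1
  choose C hC using hbd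
  set f : ℕ → E2 → ℝ := fun j x => (1 / 2 : ℝ) ^ j • L (x - Z j) with hf
  have hLs : ∀ j, ContDiff ℝ ∞ (fun x => L (x - Z j)) := fun j =>
    hL.comp (contDiff_id.sub contDiff_const)
  have hfs : ∀ j, ContDiff ℝ ∞ (f j) := fun j => (hLs j).const_smul _
  have hfb : ∀ (k : ℕ) (j : ℕ) (x : E2), ‖iteratedFDeriv ℝ k (f j) x‖ ≤ (1 / 2 : ℝ) ^ j * C k := by
    intro k j x
    have hk : ContDiffAt ℝ k (fun x => L (x - Z j)) x :=
      ((hLs j).of_le (by exact_mod_cast (le_top : (k : ℕ∞) ≤ ⊤))).contDiffAt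
    have e1 : iteratedFDeriv ℝ k (f j) x =
        (1 / 2 : ℝ) ^ j • iteratedFDeriv ℝ k (fun x => L (x - Z j)) x :=
      iteratedFDeriv_const_smul_apply' hk
    have e2 : iteratedFDeriv ℝ k (fun x => L (x - Z j)) x = iteratedFDeriv ℝ k L (x - Z j) :=
      iteratedFDeriv_comp_sub k (Z j) x
    rw [e1, e2, norm_smul, norm_pow]
    have : ‖(1 / 2 : ℝ)‖ = 1 / 2 := by norm_num
    rw [this]
    exact mul_le_mul_of_nonneg_left (hC k _) (by positivity)
  have hsum : ∀ k : ℕ, Summable (fun j : ℕ => (1 / 2 : ℝ) ^ j * C k) := fun k =>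
    (summable_geometric_of_lt_one (by norm_num) (by norm_num)).mul_right _
  have hT : ContDiff ℝ ∞ (fun x => ∑' j, f j x) :=
    contDiff_tsum hfs (v := fun k j => (1 / 2 : ℝ) ^ j * C k) (fun k _ => hsum k)
      (fun k j x _ => hfb k j x)
  -- near y
  have hnear : ∀ x ∈ ball y (ε / 2), ∀ j, L (x - Z j) = 1 / 2 * Real.log (D2 P j x) := by
    intro x hx j
    rw [mem_ball, dist_eq_norm] at hx
    rw [hLe]
    · rfl
    · have h1 := hfar j
      have h2 : ‖y - Z j‖ ≤ ‖x - Z j‖ + ‖x - y‖ := by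
        have : y - Z j = (x - Z j) - (x - y) := by abel
        rw [this]; exact norm_sub_le _ _
      rw [hρ]; linarith
    · have h2 : ‖x - Z j‖ ≤ ‖x - y‖ + ‖y‖ + ‖Z j‖ := by
        have : x - Z j = (x - y) + y - Z j := by abel
        rw [this]
        exact (norm_sub_le _ _).trans (add_le_add_left (norm_add_le _ _) _)
      have := hZn j
      rw [hR]; linarith
  have hev : ∀ᶠ x in 𝓝 y, g0 P x = ∑' j, f j x := by
    filter_upwards [ball_mem_nhds y (by positivity : 0 < ε / 2)] with x hx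
    unfold g0
    congr 1
    funext j
    rw [hf]
    simp only [smul_eq_mul]
    rw [hnear x hx j]
  refine ⟨hT.contDiffAt.congr_of_eventuallyEq hev, ?_⟩
  intro ξ
  rw [levi_congr hev, levi_eq hT]
  have hts : ∀ v : E2, iteratedFDeriv ℝ 2 (fun x => ∑' j, f j x) y (fun _ => v) =
      ∑' j, iteratedFDeriv ℝ 2 (f j) y (fun _ => v) ∧
      Summable (fun j => iteratedFDeriv ℝ 2 (f j) y (fun _ => v)) := by
    intro v
    have hsm : Summable (fun j => iteratedFDeriv ℝ 2 (f j) y) :=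
      Summable.of_norm_bounded (hsum 2) (fun j => hfb 2 j y)
    have e1 := iteratedFDeriv_tsum_apply (N := ⊤) hfs (v := fun k j => (1 / 2 : ℝ) ^ j * C k)
      (fun k _ => hsum k) (fun k j x _ => hfb k j x) (k := 2) le_top y
    rw [e1]
    let ev := ContinuousMultilinearMap.apply ℝ (fun _ : Fin 2 => E2) ℝ (fun _ => v)
    have h3 := ev.hasSum hsm.hasSum
    exact ⟨h3.tsum_eq.symm, h3.summable⟩
  obtain ⟨a1, s1⟩ := hts ξ
  obtain ⟨a2, s2⟩ := hts (Complex.I • ξ)
  rw [a1, a2, ← s1.tsum_add s2]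
  refine div_nonneg (tsum_nonneg ?_) (by norm_num)
  intro j
  have h5 := levi_eq (hfs j) y ξ
  have h6 : levi (f j) y ξ = (1 / 2 : ℝ) ^ j * levi ell (y - Z j) ξ := by
    have hne : y - Z j ≠ 0 := by
      intro h0
      have := hfar j
      rw [h0, norm_zero] at this
      linarith
    have h7 : levi (f j) y ξ = levi (fun x => (1 / 2 : ℝ) ^ j * ell (x - Z j)) y ξ := by
      apply levi_congr
      filter_upwards [ball_mem_nhds y (by positivity : 0 < ε / 2)] with x hx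
      rw [hf]
      simp only [smul_eq_mul]
      rw [hnear x hx j]
      rfl
    rw [h7]
    have h8 : ContDiffAt ℝ 2 (fun x => ell (x - Z j)) y := by
      have := (ell_contDiffAt hne).of_le two_le_infty
      exact ContDiffAt.comp (g := ell) y this (contDiffAt_id.sub contDiffAt_const)
    rw [levi_const_mul h8]
    congr 1
    unfold levi
    simp only [add_sub_right_comm]
  have h9 : 0 ≤ levi (f j) y ξ := by
    rw [h6]
    refine mul_nonneg (by positivity) (levi_ell ?_ ξ)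
    intro h0
    have := hfar j
    rw [h0, norm_zero] at this
    linarith
  rw [h5] at h9
  linarith

end Pool.Agent.H32.K
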